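import Mathlib

/-! The Cauchy-Pompeiu formula for compactly supported C1 functions on the plane. -/

open MeasureTheory Set Metric Filter Topology
open scoped Real

namespace Pool.Agent.Lib.Mergelyan

/-- The Wirtinger derivative with respect to the conjugate variable. -/
noncomputable def dbar (φ : ℂ → ℂ) (z : ℂ) : ℂ :=
  (fderiv ℝ φ z 1 + Complex.I * fderiv ℝ φ z Complex.I) / 2

/-- The Cauchy transform. -/
noncomputable def CT (ρ : ℂ → ℂ) (z : ℂ) : ℂ := (π : ℂ)⁻¹ * ∫ ζ, ρ ζ * (z - ζ)⁻¹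

theorem clm_apply_eq (L : ℂ →L[ℝ] ℂ) (x y : ℝ) :
    L (x + y * Complex.I) = x * L 1 + y * L Complex.I := by
  have : (x + y * Complex.I : ℂ) = x • (1 : ℂ) + y • Complex.I := by simp
  rw [this, map_add, map_smul, map_smul]; simp

theorem continuous_dbar {φ : ℂ → ℂ} (h : ContDiff ℝ 1 φ) : Continuous (dbar φ) := by
  have := h.continuous_fderiv one_ne_zero
  unfold dbar; fun_prop

theorem dbar_eq_zero_of_eventuallyEq {φ : ℂ → ℂ} {z c : ℂ} (h : φ =ᶠ[𝓝 z] fun _ => c) :
    dbar φ z = 0 := by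
  simp [dbar, h.fderiv_eq]

theorem dbar_congr {φ ψ : ℂ → ℂ} {z : ℂ} (h : φ =ᶠ[𝓝 z] ψ) : dbar φ z = dbar ψ z := by
  simp [dbar, h.fderiv_eq]

theorem hasCompactSupport_dbar {φ : ℂ → ℂ} (h : HasCompactSupport φ) :
    HasCompactSupport (dbar φ) := by
  refine h.mono' fun z hz => ?_
  by_contra hn
  exact hz (dbar_eq_zero_of_eventuallyEq (notMem_tsupport_iff_eventuallyEq.mp hn))

theorem dbar_eq_zero_of_differentiableAt {φ : ℂ → ℂ} {z : ℂ} (h : DifferentiableAt ℂ φ z) :
    dbar φ z = 0 := by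
  have h1 : HasFDerivAt φ ((fderiv ℂ φ z).restrictScalars ℝ) z := h.hasFDerivAt.restrictScalars ℝ
  have h2 : fderiv ℂ φ z Complex.I = Complex.I * fderiv ℂ φ z 1 := by
    rw [← smul_eq_mul, ← map_smul]; simp
  simp only [dbar, h1.fderiv, ContinuousLinearMap.coe_restrictScalars', h2]
  rw [← mul_assoc, Complex.I_mul_I]; ring

theorem dbar_mul {φ ψ : ℂ → ℂ} {z : ℂ} (h1 : DifferentiableAt ℝ φ z)
    (h2 : DifferentiableAt ℝ ψ z) :
    dbar (fun w => φ w * ψ w) z = dbar φ z * ψ z + φ z * dbar ψ z := by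
  simp only [dbar, fderiv_fun_mul h1 h2, add_apply, smul_apply, smul_eq_mul]
  ring

theorem dbar_mul_holo {φ ψ : ℂ → ℂ} {z : ℂ} (h1 : DifferentiableAt ℝ φ z)
    (h2 : DifferentiableAt ℂ ψ z) :
    dbar (fun w => φ w * ψ w) z = dbar φ z * ψ z := by
  rw [dbar_mul h1 (h2.restrictScalars ℝ), dbar_eq_zero_of_differentiableAt h2]; ring

theorem norm_dbar_le (φ : ℂ → ℂ) (z : ℂ) : ‖dbar φ z‖ ≤ ‖fderiv ℝ φ z‖ := by
  have h1 := (fderiv ℝ φ z).le_opNorm 1
  have h2 := (fderiv ℝ φ z).le_opNorm Complex.I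
  have h3 := norm_add_le (fderiv ℝ φ z 1) (Complex.I * fderiv ℝ φ z Complex.I)
  simp only [dbar, norm_div, norm_mul, Complex.norm_I, norm_one, one_mul, mul_one,
    Complex.norm_ofNat] at *
  linarith

/-- The unit vector with argument `θ`. -/
noncomputable def uv (θ : ℝ) : ℂ := Real.cos θ + Real.sin θ * Complex.I

theorem norm_uv (θ : ℝ) : ‖uv θ‖ = 1 := by
  simp only [uv, Complex.ofReal_cos, Complex.ofReal_sin]
  exact Complex.norm_cos_add_sin_mul_I θ

theorem continuous_uv : Continuous uv := by unfold uv; fun_prop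

theorem hasDerivAt_uv (θ : ℝ) : HasDerivAt uv (Complex.I * uv θ) θ := by
  have h := ((Real.hasDerivAt_cos θ).ofReal_comp).add
    (((Real.hasDerivAt_sin θ).ofReal_comp).mul_const Complex.I)
  refine HasDerivAt.congr_deriv (f' := _) h ?_
  simp only [uv]
  push_cast
  linear_combination (-Complex.sin θ) * Complex.I_mul_I

theorem polar_dbar (L : ℂ →L[ℝ] ℂ) (θ : ℝ) :
    (L 1 + Complex.I * L Complex.I) * (uv θ)⁻¹ = L (uv θ) + Complex.I * L (Complex.I * uv θ) := by
  have hne : uv θ ≠ 0 := by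
    intro h; have := norm_uv θ; rw [h] at this; simp at this
  have e1 : L (uv θ) = Real.cos θ * L 1 + Real.sin θ * L Complex.I := clm_apply_eq L _ _
  have e2 : L (Complex.I * uv θ) = (-Real.sin θ : ℝ) * L 1 + Real.cos θ * L Complex.I := by
    rw [← clm_apply_eq]; congr 1
    simp only [uv]; push_cast
    linear_combination (Complex.sin θ) * Complex.I_mul_I
  rw [e1, e2, mul_inv_eq_iff_eq_mul₀ hne]
  simp only [uv]; push_cast
  have h := Complex.sin_sq_add_cos_sq (θ : ℂ)
  have hI := Complex.I_mul_I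
  linear_combination (-(L 1) - Complex.I * L Complex.I) * h +
    (Complex.sin θ ^ 2 * L 1 - Complex.sin θ * Complex.cos θ * L Complex.I) * hI

theorem pompeiu_zero {φ : ℂ → ℂ} (h : ContDiff ℝ 1 φ) (hc : HasCompactSupport φ) :
    ∫ ζ, dbar φ ζ * ζ⁻¹ = -(π : ℂ) * φ 0 := by
  have hD := h.continuous_fderiv one_ne_zero
  have hd : Differentiable ℝ φ := h.differentiable one_ne_zero
  obtain ⟨R, hR0, hR⟩ : ∃ R, 0 < R ∧ tsupport φ ⊆ ball 0 R := by
    obtain ⟨R, hR⟩ := hc.isCompact.isBounded.subset_ball_lt 0 0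
    exact ⟨R, hR.1, hR.2⟩
  have hzero : ∀ z : ℂ, R ≤ ‖z‖ → fderiv ℝ φ z = 0 ∧ φ z = 0 := by
    intro z hz
    have : z ∉ tsupport φ := fun hz' => by
      have := hR hz'; rw [mem_ball_zero_iff] at this; linarith
    exact ⟨by simp [(notMem_tsupport_iff_eventuallyEq.mp this).fderiv_eq],
      image_eq_zero_of_notMem_tsupport this⟩
  set F : ℝ × ℝ → ℂ := fun p => fderiv ℝ φ (p.1 * uv p.2) (uv p.2) with hF
  set G : ℝ × ℝ → ℂ := fun p => fderiv ℝ φ (p.1 * uv p.2) (Complex.I * uv p.2) with hG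
  have huv := continuous_uv
  have hFc : Continuous F := by simp only [hF]; fun_prop
  have hGc : Continuous G := by simp only [hG]; fun_prop
  have hint : ∀ H : ℝ × ℝ → ℂ, Continuous H → (∀ p : ℝ × ℝ, R ≤ p.1 → H p = 0) →
      Integrable H ((volume.restrict (Ioi (0 : ℝ))).prod (volume.restrict (Ioo (-π) π))) := by
    intro H hH h0
    rw [Measure.prod_restrict, ← Measure.volume_eq_prod]
    have h1 : IntegrableOn H (Icc (0 : ℝ) R ×ˢ Icc (-π) π) :=
      hH.continuousOn.integrableOn_compact (isCompact_Icc.prod isCompact_Icc)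
    refine IntegrableOn.of_forall_sdiff_eq_zero h1 (measurableSet_Ioi.prod measurableSet_Ioo) ?_
    rintro p ⟨⟨hp1, hp2⟩, hp3⟩
    by_contra hne
    refine hp3 ⟨⟨le_of_lt hp1, ?_⟩, Ioo_subset_Icc_self hp2⟩
    by_contra hlt
    exact hne (h0 p (le_of_lt (not_le.mp hlt)))
  have hnorm : ∀ p : ℝ × ℝ, R ≤ p.1 → R ≤ ‖(p.1 : ℂ) * uv p.2‖ := by
    intro p hp
    rw [norm_mul, norm_uv, mul_one, Complex.norm_real]
    exact hp.trans (le_abs_self _)
  have hFi := hint F hFc fun p hp => by simp only [hF, (hzero _ (hnorm p hp)).1]; simp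
  have hGi := hint G hGc fun p hp => by simp only [hG, (hzero _ (hnorm p hp)).1]; simp
  have hFint : ∫ p, F p ∂((volume.restrict (Ioi (0 : ℝ))).prod (volume.restrict (Ioo (-π) π))) =
      -(2 * π : ℂ) * φ 0 := by
    rw [integral_prod_symm _ hFi]
    have : ∀ θ : ℝ, ∫ r in Ioi (0 : ℝ), F (r, θ) = -φ 0 := by
      intro θ
      have hder : ∀ r : ℝ, HasDerivAt (fun r : ℝ => φ (r * uv θ)) (F (r, θ)) r := by
        intro r
        have h1 : HasDerivAt (fun r : ℝ => (r : ℂ) * uv θ) (uv θ) r := by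
          simpa using (hasDerivAt_id r).ofReal_comp.mul_const (uv θ)
        exact (hd _).hasFDerivAt.comp_hasDerivAt r h1
      have hc' : Continuous fun r : ℝ => F (r, θ) := by fun_prop
      have hi : IntegrableOn (fun r : ℝ => F (r, θ)) (Ioi 0) := by
        have h1 : IntegrableOn (fun r : ℝ => F (r, θ)) (Icc 0 R) :=
          hc'.continuousOn.integrableOn_compact isCompact_Icc
        refine IntegrableOn.of_forall_sdiff_eq_zero h1 measurableSet_Ioi ?_
        rintro r ⟨hr1, hr2⟩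
        have : R ≤ r := by
          by_contra hlt
          exact hr2 ⟨le_of_lt hr1, le_of_lt (not_le.mp hlt)⟩
        simp only [hF, (hzero _ (hnorm (r, θ) this)).1]; simp
      have ht : Tendsto (fun r : ℝ => φ (r * uv θ)) atTop (𝓝 0) := by
        refine tendsto_const_nhds.congr' ?_
        filter_upwards [eventually_ge_atTop R] with r hr
        exact ((hzero _ (hnorm (r, θ) hr)).2).symm
      rw [integral_Ioi_of_hasDerivAt_of_tendsto' (fun r _ => hder r) hi ht]
      simp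
    simp only [this]
    rw [setIntegral_const, Real.volume_real_Ioo_of_le (by linarith [Real.pi_pos])]
    simp only [Complex.real_smul]; push_cast; ring
  have hGint : ∫ p, G p ∂((volume.restrict (Ioi (0 : ℝ))).prod (volume.restrict (Ioo (-π) π))) =
      0 := by
    rw [integral_prod _ hGi]
    refine setIntegral_eq_zero_of_forall_eq_zero fun r hr => ?_
    have hr' : (r : ℂ) ≠ 0 := by exact_mod_cast (ne_of_gt hr)
    have hder : ∀ θ : ℝ, HasDerivAt (fun θ : ℝ => (r : ℂ)⁻¹ * φ (r * uv θ)) (G (r, θ)) θ := by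
      intro θ
      have h1 : HasDerivAt (fun θ : ℝ => (r : ℂ) * uv θ) (r * (Complex.I * uv θ)) θ :=
        (hasDerivAt_uv θ).const_mul _
      have h2 := ((hd _).hasFDerivAt.comp_hasDerivAt θ h1).const_mul (r : ℂ)⁻¹
      refine HasDerivAt.congr_deriv (f' := _) h2 ?_
      have : (r : ℂ) * (Complex.I * uv θ) = r • (Complex.I * uv θ) := by simp
      rw [this, map_smul]
      simp only [hG, Complex.real_smul]
      field_simp
    have hc' : Continuous fun θ : ℝ => G (r, θ) := by fun_prop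
    rw [← integral_Ioc_eq_integral_Ioo, ← intervalIntegral.integral_of_le (by linarith [Real.pi_pos]),
      intervalIntegral.integral_eq_sub_of_hasDerivAt (fun θ _ => hder θ) (hc'.intervalIntegrable _ _)]
    simp [uv]
  rw [← Complex.integral_comp_polarCoord_symm, polarCoord_target]
  have e : ∫ p in Ioi (0 : ℝ) ×ˢ Ioo (-π) π,
      p.1 • (dbar φ (Complex.polarCoord.symm p) * (Complex.polarCoord.symm p)⁻¹) =
      ∫ p in Ioi (0 : ℝ) ×ˢ Ioo (-π) π, (F p + Complex.I * G p) / 2 := by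
    refine setIntegral_congr_fun (measurableSet_Ioi.prod measurableSet_Ioo) fun p hp => ?_
    have hr' : (p.1 : ℂ) ≠ 0 := by exact_mod_cast (ne_of_gt hp.1)
    have e1 : Complex.polarCoord.symm p = p.1 * uv p.2 := by
      rw [Complex.polarCoord_symm_apply]; rfl
    simp only [e1, hF, hG, ← polar_dbar, dbar, Complex.real_smul, mul_inv]
    field_simp
  rw [e, Measure.volume_eq_prod, ← Measure.prod_restrict, integral_div,
    integral_add hFi (hGi.const_mul _), integral_const_mul, hFint, hGint]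
  ring

/-- The Cauchy-Pompeiu formula. -/
theorem pompeiu {φ : ℂ → ℂ} (h : ContDiff ℝ 1 φ) (hc : HasCompactSupport φ) (z : ℂ) :
    CT (dbar φ) z = φ z := by
  have h1 : ContDiff ℝ 1 fun w => φ (w + z) := h.comp (contDiff_id.add contDiff_const)
  have hc1 : HasCompactSupport fun w => φ (w + z) := hc.comp_homeomorph (Homeomorph.addRight z)
  have h2 := pompeiu_zero h1 hc1
  have h3 : ∀ ζ, dbar (fun w => φ (w + z)) ζ = dbar φ (ζ + z) := fun ζ => by
    simp only [dbar, fderiv_comp_add_right]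
  simp only [h3, zero_add] at h2
  rw [CT, ← integral_add_right_eq_self _ z]
  have h4 : ∀ ζ : ℂ, dbar φ (ζ + z) * (z - (ζ + z))⁻¹ = -(dbar φ (ζ + z) * ζ⁻¹) := fun ζ => by
    rw [show z - (ζ + z) = -ζ by ring, inv_neg]; ring
  simp only [h4, integral_neg, h2]
  have : (π : ℂ) ≠ 0 := by exact_mod_cast Real.pi_ne_zero
  field_simp

theorem integral_dbar_eq_zero {φ : ℂ → ℂ} (h : ContDiff ℝ 1 φ) (hc : HasCompactSupport φ) :
    ∫ ζ, dbar φ ζ = 0 := by
  have h1 : ContDiff ℝ 1 fun w => φ w * w := h.mul contDiff_id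
  have h2 := pompeiu_zero h1 hc.mul_right
  rw [mul_zero, mul_zero] at h2
  rw [← h2]
  refine integral_congr_ae ?_
  have : ∀ᵐ ζ : ℂ, ζ ≠ 0 := by simp [ae_iff]
  filter_upwards [this] with ζ hζ
  rw [dbar_mul_holo (ψ := fun w => w) (h.differentiable one_ne_zero ζ) differentiableAt_id]
  field_simp

end Pool.Agent.Lib.Mergelyan
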