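import Pool.Agent.Lib.Mergelyan.Kernel

/-! Mergelyan's theorem. -/

open MeasureTheory Set Metric Filter Topology
open scoped Real Convolution Pointwise

namespace Pool.Agent.Lib.Mergelyan

theorem Data.indicator {ρ : ℂ → ℂ} {M : ℝ} {S T : Set ℂ} (h : Data ρ M S) (hT : MeasurableSet T) :
    Data (T.indicator ρ) M S :=
  ⟨h.meas.indicator hT, fun ζ => (norm_indicator_le_norm_self ρ ζ).trans (h.bdd ζ),
    fun ζ hζ => by by_cases hT' : ζ ∈ T <;> simp [hT', h.supp ζ hζ], h.mS, h.fin⟩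

theorem Data.integrable_mul_maj {ρ : ℂ → ℂ} {M : ℝ} {S : Set ℂ} (h : Data ρ M S) (z : ℂ) :
    Integrable fun ζ => ‖ρ ζ‖ * maj (z - ζ) :=
  (integrable_maj.comp_sub_left z).bdd_mul h.meas.norm
    (ae_of_all _ fun ζ => by simpa using h.bdd ζ)

theorem approx_ball {K : Set ℂ} (hK : IsCompact K) (hc : IsPreconnected Kᶜ) {a : ℂ} (ha : a ∉ K)
    {ρ : ℂ → ℂ} {M : ℝ} {S : Set ℂ} (h : Data ρ M S) (h0 : ∀ ζ, ζ ∉ ball a 3 → ρ ζ = 0) :
    ∃ F, PA K F ∧ ∀ z ∈ K, ‖CT ρ z - F z‖ ≤ π⁻¹ * ∫ ζ, ‖ρ ζ‖ * maj (z - ζ) := by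
  obtain ⟨g, c, hg, hk⟩ := exists_kernel hK hc ha
  have h1 := h.integrable
  have h2 : Integrable fun ζ => ρ ζ * (ζ - c) := by
    refine (h1.norm.mul_const (3 + ‖a - c‖)).mono'
      (h.meas.mul (by fun_prop : Continuous fun ζ : ℂ => ζ - c).aestronglyMeasurable)
      (ae_of_all _ fun ζ => ?_)
    by_cases hζ : ζ ∈ ball a 3
    · rw [norm_mul]
      rw [mem_ball, dist_eq_norm] at hζ
      have := norm_sub_le_norm_sub_add_norm_sub ζ a c
      gcongr; linarith
    · simp [h0 ζ hζ]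
  refine ⟨fun z => (π : ℂ)⁻¹ * ((∫ ζ, ρ ζ) * g z + (∫ ζ, ρ ζ * (ζ - c)) * g z ^ 2),
    ((hg.const_mul hK _).add ((hg.pow hK 2).const_mul hK _)).const_mul hK _, fun z hz => ?_⟩
  simp only [CT]
  rw [← mul_sub, norm_mul, norm_inv, Complex.norm_real, Real.norm_of_nonneg Real.pi_pos.le,
    ← integral_mul_const, ← integral_mul_const, ← integral_add (h1.mul_const _) (h2.mul_const _),
    ← integral_sub (h.integrable_kernel z) (show Integrable (fun ζ => ρ ζ * g z + ρ ζ * (ζ - c) * g z ^ 2)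
      from (h1.mul_const _).add (h2.mul_const _))]
  gcongr
  refine norm_integral_le_of_norm_le (h.integrable_mul_maj z) (ae_of_all _ fun ζ => ?_)
  by_cases hζ : ζ ∈ ball a 3
  · rw [show ρ ζ * (z - ζ)⁻¹ - (ρ ζ * g z + ρ ζ * (ζ - c) * g z ^ 2) =
      -(ρ ζ * (g z + (ζ - c) * g z ^ 2 - (z - ζ)⁻¹)) by ring, norm_neg, norm_mul]
    gcongr; exact hk ζ hζ z hz
  · simp [h0 ζ hζ]

theorem approx_balls {K : Set ℂ} (hK : IsCompact K) (hc : IsPreconnected Kᶜ) (t : Finset ℂ)
    (ht : ∀ a ∈ t, a ∉ K) {M : ℝ} {S : Set ℂ} :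
    ∀ {ρ : ℂ → ℂ}, Data ρ M S → (∀ ζ, (∀ a ∈ t, ζ ∉ ball a 3) → ρ ζ = 0) →
    ∃ F, PA K F ∧ ∀ z ∈ K, ‖CT ρ z - F z‖ ≤ π⁻¹ * ∫ ζ, ‖ρ ζ‖ * maj (z - ζ) := by
  classical
  induction t using Finset.induction_on with
  | empty =>
    intro ρ _ h0
    have : ρ = fun _ => 0 := funext fun ζ => h0 ζ (by simp)
    exact ⟨fun _ => 0, PA.const 0, fun z _ => by simp [this, CT]⟩
  | insert a t _ ih =>
    intro ρ h h0
    have d1 := h.indicator (measurableSet_ball (x := a) (ε := 3))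
    have d2 := h.indicator (measurableSet_ball (x := a) (ε := 3)).compl
    obtain ⟨F1, hF1, e1⟩ := approx_ball hK hc (ht a (Finset.mem_insert_self _ _)) d1
      fun ζ hζ => indicator_of_notMem hζ _
    obtain ⟨F2, hF2, e2⟩ := ih (fun b hb => ht b (Finset.mem_insert_of_mem hb)) d2 fun ζ hζ => by
      by_cases hb : ζ ∈ ball a 3
      · exact indicator_of_notMem (by simpa using hb) _
      · rw [indicator_of_mem (by simpa using hb)]
        exact h0 ζ fun b hb' => by
          rcases Finset.mem_insert.mp hb' with rfl | hb'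
          exacts [hb, hζ b hb']
    refine ⟨fun z => F1 z + F2 z, hF1.add hF2, fun z hz => ?_⟩
    have a1 : CT ρ z = CT ((ball a 3).indicator ρ) z + CT ((ball a 3)ᶜ.indicator ρ) z := by
      simp only [CT]
      rw [← mul_add, ← integral_add (d1.integrable_kernel z) (d2.integrable_kernel z)]
      congr 2; funext ζ
      rw [← add_mul, indicator_self_add_compl_apply]
    have a2 : ∫ ζ, ‖ρ ζ‖ * maj (z - ζ) = (∫ ζ, ‖(ball a 3).indicator ρ ζ‖ * maj (z - ζ)) +
        ∫ ζ, ‖(ball a 3)ᶜ.indicator ρ ζ‖ * maj (z - ζ) := by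
      rw [← integral_add (d1.integrable_mul_maj z) (d2.integrable_mul_maj z)]
      congr 1; funext ζ
      by_cases hb : ζ ∈ ball a 3
      · rw [indicator_of_mem hb, indicator_of_notMem (by simpa using hb)]; simp
      · rw [indicator_of_notMem hb, indicator_of_mem (by simpa using hb)]; simp
    rw [a1, a2, mul_add, add_sub_add_comm]
    exact (norm_add_le _ _).trans (add_le_add (e1 z hz) (e2 z hz))

/-- A fixed bump function. -/
noncomputable def bump : ContDiffBump (0 : ℂ) := ⟨1 / 2, 1, by norm_num, by norm_num⟩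

/-- The normalised bump function with complex values. -/
noncomputable def bA (w : ℂ) : ℂ := (bump.normed volume w : ℝ)

theorem contDiff_bA : ContDiff ℝ 1 bA := Complex.ofRealCLM.contDiff.comp bump.contDiff_normed

theorem hcs_bA : HasCompactSupport bA :=
  bump.hasCompactSupport_normed.comp_left (g := fun x : ℝ => (x : ℂ)) (by simp)

theorem bA_eventually {w : ℂ} (hw : w ∉ closedBall (0 : ℂ) 1) : bA =ᶠ[𝓝 w] fun _ => 0 := by
  filter_upwards [isClosed_closedBall.isOpen_compl.mem_nhds hw] with x hx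
  have : x ∉ Function.support (bump.normed volume) := by
    rw [bump.support_normed_eq]; exact fun h => hx (ball_subset_closedBall h)
  simp [bA, Function.notMem_support.mp this]

theorem exists_smoothing : ∃ C : ℝ, 0 ≤ C ∧ ∀ (f : ℂ → ℂ) (ω : ℝ), Continuous f →
    HasCompactSupport f → (∀ z w, ‖z - w‖ ≤ 1 → ‖f z - f w‖ ≤ ω) →
    ∃ Φ, ContDiff ℝ 1 Φ ∧ HasCompactSupport Φ ∧ ∀ z, ‖Φ z - f z‖ ≤ ω ∧ ‖dbar Φ z‖ ≤ C * ω ∧
      (DifferentiableOn ℂ f (ball z 2) → dbar Φ z = 0) := by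
  have hD := continuous_dbar contDiff_bA
  have hDc := hasCompactSupport_dbar hcs_bA
  have hDi : Integrable (dbar bA) := hD.integrable_of_hasCompactSupport hDc
  have hAi : Integrable bA := contDiff_bA.continuous.integrable_of_hasCompactSupport hcs_bA
  refine ⟨∫ t, ‖dbar bA t‖, by positivity, fun f ω hf hfc hω => ?_⟩
  have hfl : LocallyIntegrable f := hf.locallyIntegrable
  set L : ℂ →L[ℝ] ℂ →L[ℝ] ℂ := ContinuousLinearMap.mul ℝ ℂ with hL
  have hswap : ∀ (g : ℂ → ℂ) (z : ℂ), (f ⋆[L, volume] g) z = ∫ t, f (z - t) * g t := fun g z => by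
    rw [convolution_eq_swap]; rfl
  have hint : ∀ (g : ℂ → ℂ), Continuous g → HasCompactSupport g → ∀ z,
      Integrable fun t => f (z - t) * g t := fun g hg hgc z =>
    (by fun_prop : Continuous fun t => f (z - t) * g t).integrable_of_hasCompactSupport hgc.mul_left
  have hosc : ∀ (g : ℂ → ℂ), Continuous g → HasCompactSupport g →
      (∀ t, t ∉ closedBall (0 : ℂ) 1 → g t = 0) → ∀ z,
      ‖(∫ t, f (z - t) * g t) - f z * ∫ t, g t‖ ≤ (∫ t, ‖g t‖) * ω := by
    intro g hg hgc h0 z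
    have hgi := hg.integrable_of_hasCompactSupport (μ := volume) hgc
    rw [← integral_const_mul, ← integral_sub (hint g hg hgc z) (hgi.const_mul _),
      ← integral_mul_const]
    refine norm_integral_le_of_norm_le (hgi.norm.mul_const _) (ae_of_all _ fun t => ?_)
    by_cases ht : t ∈ closedBall (0 : ℂ) 1
    · rw [← sub_mul, norm_mul, mul_comm]
      gcongr
      exact hω _ _ (by simpa using ht)
    · simp [h0 t ht]
  have hfd := contDiff_bA.continuous_fderiv one_ne_zero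
  have hdbar : ∀ z, dbar (f ⋆[L, volume] bA) z = ∫ t, f (z - t) * dbar bA t := fun z => by
    have h1 := (hcs_bA.hasFDerivAt_convolution_right L hfl contDiff_bA z).fderiv
    have hv : ∀ v, HasCompactSupport fun a => fderiv ℝ bA a v := fun v =>
      (hcs_bA.fderiv ℝ).comp_left (g := fun T : ℂ →L[ℝ] ℂ => T v) (by simp)
    simp only [dbar, h1, convolution_precompR_apply L hfl (hcs_bA.fderiv ℝ) hfd, hswap]
    rw [← integral_const_mul, ← integral_add (hint _ (by fun_prop) (hv 1) z)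
      ((hint _ (by fun_prop) (hv Complex.I) z).const_mul _), ← integral_div]
    congr 1; funext t; ring
  refine ⟨f ⋆[L, volume] bA, hcs_bA.contDiff_convolution_right L hfl contDiff_bA,
    hfc.convolution L hcs_bA, fun z => ⟨?_, ?_, fun hd => ?_⟩⟩
  · have h1 := hosc bA contDiff_bA.continuous hcs_bA (fun t ht => (bA_eventually ht).eq_of_nhds) z
    have h2 : ∫ t, bA t = 1 := by
      simp only [bA]; rw [integral_complex_ofReal, bump.integral_normed]; simp
    have h3 : ∫ t, ‖bA t‖ = 1 := by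
      simp only [bA, Complex.norm_real, Real.norm_of_nonneg (bump.nonneg_normed _)]
      exact bump.integral_normed
    rwa [h2, h3, mul_one, one_mul, ← hswap] at h1
  · have h1 := hosc (dbar bA) hD hDc
      (fun t ht => dbar_eq_zero_of_eventuallyEq (bA_eventually ht)) z
    rwa [integral_dbar_eq_zero contDiff_bA hcs_bA, mul_zero, sub_zero, ← hdbar] at h1
  · have hat : ∀ t ∈ ball (0 : ℂ) 2, AnalyticAt ℂ (fun t => f (z - t)) t := fun t ht => by
      have : z - t ∈ ball z 2 := by simpa using ht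
      exact (hd.analyticAt (isOpen_ball.mem_nhds this)).comp (f := fun t => z - t) (by fun_prop)
    have hψ : ContDiff ℝ 1 fun t => bA t * f (z - t) := by
      rw [contDiff_iff_contDiffAt]
      intro t
      by_cases ht : t ∈ closedBall (0 : ℂ) 1
      · exact contDiff_bA.contDiffAt.mul
          ((hat t (closedBall_subset_ball (by norm_num) ht)).contDiffAt.restrict_scalars ℝ)
      · refine (contDiffAt_const (c := (0 : ℂ))).congr_of_eventuallyEq ?_
        filter_upwards [bA_eventually ht] with x hx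
        simp [hx]
    rw [hdbar, ← integral_dbar_eq_zero hψ hcs_bA.mul_right]
    congr 1; funext t
    by_cases ht : t ∈ closedBall (0 : ℂ) 1
    · rw [dbar_mul_holo (contDiff_bA.differentiable one_ne_zero t)
        (hat t (closedBall_subset_ball (by norm_num) ht)).differentiableAt, mul_comm]
    · rw [dbar_eq_zero_of_eventuallyEq (bA_eventually ht), mul_zero]
      refine (dbar_eq_zero_of_eventuallyEq (c := 0) ?_).symm
      filter_upwards [bA_eventually ht] with x hx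
      simp [hx]

theorem unit_scale : ∃ C : ℝ, 0 < C ∧ ∀ (K : Set ℂ) (f : ℂ → ℂ) (ω : ℝ), IsCompact K →
    IsPreconnected Kᶜ → Continuous f → HasCompactSupport f → DifferentiableOn ℂ f (interior K) →
    (∀ z w, ‖z - w‖ ≤ 1 → ‖f z - f w‖ ≤ ω) → ∃ F, PA K F ∧ ∀ z ∈ K, ‖f z - F z‖ ≤ C * ω := by
  obtain ⟨C, hC, h⟩ := exists_smoothing
  have hI : 0 ≤ ∫ w, maj w := integral_nonneg maj_nonneg
  refine ⟨1 + π⁻¹ * (C * ∫ w, maj w), by positivity, fun K f ω hK hc hf hfc hd hω => ?_⟩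
  obtain ⟨Φ, hΦ, hΦc, hΦ'⟩ := h f ω hf hfc hω
  obtain ⟨M, hM⟩ := exists_data_dbar hΦ hΦc
  have hT : tsupport (dbar Φ) ⊆ ⋃ a : (Kᶜ : Set ℂ), ball (a : ℂ) 3 := by
    intro z hz
    obtain ⟨w, hw, hzw⟩ := Metric.mem_closure_iff.mp hz 1 one_pos
    have : ¬ ball w 2 ⊆ K := fun hs =>
      hw ((hΦ' w).2.2 (hd.mono (interior_maximal hs isOpen_ball)))
    obtain ⟨a, ha, haK⟩ := not_subset.mp this
    refine mem_iUnion.mpr ⟨⟨a, haK⟩, ?_⟩
    rw [mem_ball] at *
    linarith [dist_triangle z w a, dist_comm a w]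
  obtain ⟨t, ht⟩ := (hasCompactSupport_dbar hΦc).isCompact.elim_finite_subcover _
    (fun _ => isOpen_ball) hT
  classical
  obtain ⟨F, hF, hF'⟩ := approx_balls hK hc (t.image Subtype.val)
    (fun a ha => by obtain ⟨b, -, rfl⟩ := Finset.mem_image.mp ha; exact b.2) hM fun ζ hζ => by
      by_contra hne
      obtain ⟨a, ha, hζa⟩ := mem_iUnion₂.mp (ht (subset_tsupport _ hne))
      exact hζ a (Finset.mem_image_of_mem _ ha) hζa
  refine ⟨F, hF, fun z hz => ?_⟩
  have h1 := hF' z hz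
  rw [pompeiu hΦ hΦc] at h1
  have h2 : ∫ ζ, ‖dbar Φ ζ‖ * maj (z - ζ) ≤ C * ω * ∫ w, maj w := by
    rw [← integral_sub_left_eq_self maj volume z, ← integral_const_mul]
    exact integral_mono (hM.integrable_mul_maj z) ((integrable_maj.comp_sub_left z).const_mul _)
      fun ζ => mul_le_mul_of_nonneg_right (hΦ' ζ).2.1 (maj_nonneg _)
  have h3 : π⁻¹ * ∫ ζ, ‖dbar Φ ζ‖ * maj (z - ζ) ≤ π⁻¹ * (C * ω * ∫ w, maj w) := by gcongr
  have h4 := norm_sub_le_norm_sub_add_norm_sub (f z) (Φ z) (F z)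
  have h5 := (hΦ' z).1
  rw [norm_sub_rev] at h5
  nlinarith

theorem exists_extension {K : Set ℂ} (hK : IsCompact K) {f : ℂ → ℂ} (hf : ContinuousOn f K) :
    ∃ g : ℂ → ℂ, Continuous g ∧ HasCompactSupport g ∧ EqOn g f K := by
  obtain ⟨g, hg⟩ := ContinuousMap.exists_restrict_eq hK.isClosed
    (⟨K.domRestrict f, hf.domRestrict⟩ : C(K, ℂ))
  obtain ⟨R, hR0, hR⟩ := hK.isBounded.subset_ball_lt 0 0
  let β : ContDiffBump (0 : ℂ) := ⟨R, R + 1, hR0, by linarith⟩
  have hβc : HasCompactSupport fun w => (β w : ℂ) :=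
    β.hasCompactSupport.comp_left (g := fun x : ℝ => (x : ℂ)) (by simp)
  have hβ := β.continuous
  refine ⟨fun w => (β w : ℂ) * g w, by fun_prop, hβc.mul_right, fun z hz => ?_⟩
  have h1 : β z = 1 := β.one_of_mem_closedBall (ball_subset_closedBall (hR hz))
  have h2 : g z = f z := congrArg (fun u : C(K, ℂ) => u ⟨z, hz⟩) hg
  simp [h1, h2]

/-- **Mergelyan's theorem**. -/
theorem mergelyan {K : Set ℂ} (hK : IsCompact K) (hc : IsPreconnected Kᶜ) {f : ℂ → ℂ}
    (hf : ContinuousOn f K) (hd : DifferentiableOn ℂ f (interior K)) : PA K f := by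
  obtain ⟨C, hC, h⟩ := unit_scale
  obtain ⟨g, hg, hgc, hgf⟩ := exists_extension hK hf
  intro ε hε
  obtain ⟨δ, hδ, hu⟩ := Metric.uniformContinuous_iff_le.mp
    (hgc.uniformContinuous_of_continuous hg) (ε / (2 * C)) (by positivity)
  have hδ' : (δ : ℂ) ≠ 0 := by exact_mod_cast hδ.ne'
  let e : ℂ ≃ₜ ℂ := Homeomorph.mulLeft₀ (δ : ℂ) hδ'
  have he : ∀ w, e w = δ * w := fun _ => rfl
  obtain ⟨F, hF, hF'⟩ := h (e ⁻¹' K) (g ∘ e) (ε / (2 * C)) (e.isCompact_preimage.mpr hK)
    (by rw [← preimage_compl]; exact e.isPreconnected_preimage.mpr hc) (hg.comp e.continuous)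
    (hgc.comp_homeomorph e) (by
      rw [← e.preimage_interior]
      exact ((hd.congr fun z hz => hgf (interior_subset hz)).comp
        (f := fun w => (δ : ℂ) * w) (by fun_prop) fun w hw => hw))
    (fun z w hzw => by
      rw [← dist_eq_norm]
      refine hu ?_
      rw [dist_eq_norm, he, he, ← mul_sub, norm_mul, Complex.norm_real, Real.norm_of_nonneg hδ.le]
      exact mul_le_of_le_one_right hδ.le hzw)
  obtain ⟨p, hp⟩ := hF (ε / 2) (half_pos hε)
  refine ⟨p.comp (Polynomial.C (δ : ℂ)⁻¹ * Polynomial.X), fun z hz => ?_⟩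
  have hz' : (δ : ℂ)⁻¹ * z ∈ e ⁻¹' K := by
    rw [mem_preimage, he, mul_inv_cancel_left₀ hδ']; exact hz
  have h1 := hF' _ hz'
  have h2 := hp _ hz'
  rw [Function.comp_apply, he, mul_inv_cancel_left₀ hδ', hgf hz,
    show C * (ε / (2 * C)) = ε / 2 by field_simp] at h1
  simp only [Polynomial.eval_comp, Polynomial.eval_mul, Polynomial.eval_C, Polynomial.eval_X]
  linarith [norm_sub_le_norm_sub_add_norm_sub (f z) (F ((δ : ℂ)⁻¹ * z)) (p.eval ((δ : ℂ)⁻¹ * z))]

end Pool.Agent.Lib.Mergelyan
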