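import Pool.Agent.Lib.Mergelyan.Pompeiu

/-! The Cauchy transform of bounded data on a set of finite area. -/

open MeasureTheory Set Metric Filter Topology
open scoped Real

namespace Pool.Agent.Lib.Mergelyan

/-- The singular part of the Cauchy kernel. -/
noncomputable def kr (r : ℝ) : ℂ → ℝ := (ball (0 : ℂ) r).indicator fun w => ‖w‖⁻¹

theorem kr_nonneg (r : ℝ) (w : ℂ) : 0 ≤ kr r w :=
  indicator_nonneg (fun _ _ => by positivity) w

theorem integrable_kr (r : ℝ) : Integrable (kr r) := by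
  rw [kr, integrable_indicator_iff measurableSet_ball]
  refine integrableOn_ball_of_norm_le_rpow (C := 1) (α := 1) (by simp) (by simp) ?_ ?_
  · exact ae_of_all _ fun w => by simp [Real.rpow_neg_one]
  · exact (measurable_norm.inv).aestronglyMeasurable

theorem integral_kr {r : ℝ} (hr : 0 ≤ r) : ∫ w, kr r w = 2 * π * r := by
  rw [← Complex.integral_comp_polarCoord_symm, polarCoord_target]
  have e : ∫ p in Ioi (0 : ℝ) ×ˢ Ioo (-π) π, p.1 • kr r (Complex.polarCoord.symm p) =
      ∫ p in Ioi (0 : ℝ) ×ˢ Ioo (-π) π, (Iio r ×ˢ (univ : Set ℝ)).indicator (fun _ => (1 : ℝ)) p := by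
    refine setIntegral_congr_fun (measurableSet_Ioi.prod measurableSet_Ioo) fun p hp => ?_
    have hp1 : 0 < p.1 := hp.1
    have e1 : ‖Complex.polarCoord.symm p‖ = p.1 := by
      rw [Complex.norm_polarCoord_symm, abs_of_pos hp1]
    by_cases h : p.1 < r
    · have h1 : Complex.polarCoord.symm p ∈ ball (0 : ℂ) r := by rwa [mem_ball_zero_iff, e1]
      have h2 : p ∈ Iio r ×ˢ (univ : Set ℝ) := ⟨h, trivial⟩
      simp only [kr, indicator_of_mem h1, indicator_of_mem h2, e1, smul_eq_mul]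
      field_simp
    · have h1 : Complex.polarCoord.symm p ∉ ball (0 : ℂ) r := by rwa [mem_ball_zero_iff, e1]
      have h2 : p ∉ Iio r ×ˢ (univ : Set ℝ) := fun h' => h h'.1
      simp only [kr, indicator_of_notMem h1, indicator_of_notMem h2, smul_zero]
  rw [e, setIntegral_indicator (measurableSet_Iio.prod MeasurableSet.univ), prod_inter_prod,
    inter_univ, Ioi_inter_Iio, setIntegral_const, Measure.volume_eq_prod, measureReal_prod_prod,
    Real.volume_real_Ioo_of_le hr, Real.volume_real_Ioo_of_le (by linarith [Real.pi_pos])]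
  simp only [smul_eq_mul]; ring

theorem norm_inv_le_kr {r : ℝ} (hr : 0 < r) (w : ℂ) : ‖w⁻¹‖ ≤ kr r w + r⁻¹ := by
  rw [norm_inv]
  by_cases h : w ∈ ball (0 : ℂ) r
  · simp only [kr, indicator_of_mem h]; linarith [inv_pos.mpr hr]
  · simp only [kr, indicator_of_notMem h, zero_add]
    rw [mem_ball_zero_iff, not_lt] at h
    exact inv_anti₀ hr h

theorem integrable_kr_sub (r : ℝ) (z : ℂ) : Integrable fun ζ => kr r (z - ζ) :=
  (integrable_kr r).comp_sub_left z

theorem integral_kr_sub {r : ℝ} (hr : 0 ≤ r) (z : ℂ) : ∫ ζ, kr r (z - ζ) = 2 * π * r := by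
  rw [integral_sub_left_eq_self (kr r) volume z, integral_kr hr]

/-- Bounded measurable data vanishing off a set of finite area. -/
structure Data (ρ : ℂ → ℂ) (M : ℝ) (S : Set ℂ) : Prop where
  meas : AEStronglyMeasurable ρ volume
  bdd : ∀ ζ, ‖ρ ζ‖ ≤ M
  supp : ∀ ζ, ζ ∉ S → ρ ζ = 0
  mS : MeasurableSet S
  fin : volume S ≠ ⊤

namespace Data
variable {ρ : ℂ → ℂ} {M : ℝ} {S : Set ℂ}

theorem nonneg (h : Data ρ M S) : 0 ≤ M := (norm_nonneg _).trans (h.bdd 0)

theorem integrable_ind (h : Data ρ M S) (c : ℝ) : Integrable (S.indicator fun _ => c) :=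
  (integrable_indicator_iff h.mS).mpr (integrableOn_const h.fin)

theorem le_ind (h : Data ρ M S) (ζ : ℂ) {k : ℂ} {c : ℝ} (hk : ‖k‖ ≤ c) :
    ‖ρ ζ * k‖ ≤ S.indicator (fun _ => M * c) ζ := by
  by_cases hζ : ζ ∈ S
  · rw [indicator_of_mem hζ, norm_mul]
    exact mul_le_mul (h.bdd ζ) hk (norm_nonneg _) h.nonneg
  · simp [h.supp ζ hζ, indicator_of_notMem hζ]

theorem integrable (h : Data ρ M S) : Integrable ρ :=
  (h.integrable_ind (M * 1)).mono' h.meas (ae_of_all _ fun ζ => by
    simpa using h.le_ind ζ (k := 1) (c := 1) (by simp))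

theorem kernel_le (h : Data ρ M S) {r : ℝ} (hr : 0 < r) (z ζ : ℂ) :
    ‖ρ ζ * (z - ζ)⁻¹‖ ≤ M * kr r (z - ζ) + S.indicator (fun _ => M * r⁻¹) ζ := by
  by_cases hζ : ζ ∈ S
  · rw [indicator_of_mem hζ, norm_mul, ← mul_add]
    exact mul_le_mul (h.bdd ζ) (norm_inv_le_kr hr _) (norm_nonneg _) h.nonneg
  · simp only [h.supp ζ hζ, indicator_of_notMem hζ, zero_mul, norm_zero, add_zero]
    exact mul_nonneg h.nonneg (kr_nonneg _ _)

theorem integrable_kernel (h : Data ρ M S) (z : ℂ) : Integrable fun ζ => ρ ζ * (z - ζ)⁻¹ :=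
  (((integrable_kr_sub 1 z).const_mul M).add (h.integrable_ind _)).mono'
    (h.meas.mul (by fun_prop : Measurable fun ζ : ℂ => (z - ζ)⁻¹).aestronglyMeasurable)
    (ae_of_all _ fun ζ => h.kernel_le one_pos z ζ)

theorem norm_CT_le (h : Data ρ M S) {a : ℝ} (ha : 0 < a) (hS : volume.real S ≤ a ^ 2) (z : ℂ) :
    ‖CT ρ z‖ ≤ 3 * M * a := by
  have hM := h.nonneg
  have h1 : ‖∫ ζ, ρ ζ * (z - ζ)⁻¹‖ ≤ M * (2 * π * a) + volume.real S * (M * a⁻¹) := by
    refine (norm_integral_le_of_norm_le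
      (((integrable_kr_sub a z).const_mul M).add (h.integrable_ind _))
      (ae_of_all _ fun ζ => h.kernel_le ha z ζ)).trans (le_of_eq ?_)
    simp only [Pi.add_apply]
    rw [integral_add ((integrable_kr_sub a z).const_mul M) (h.integrable_ind _),
      integral_const_mul, integral_kr_sub ha.le, integral_indicator_const _ h.mS, smul_eq_mul]
  have h2 : volume.real S * (M * a⁻¹) ≤ M * a := by
    calc _ ≤ a ^ 2 * (M * a⁻¹) := by gcongr
      _ = M * a := by field_simp
  have hπ : (1 : ℝ) ≤ π := by linarith [Real.pi_gt_three]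
  rw [CT, norm_mul, norm_inv, Complex.norm_real, Real.norm_of_nonneg Real.pi_pos.le,
    inv_mul_le_iff₀ Real.pi_pos]
  have : M * a ≤ π * (M * a) := le_mul_of_one_le_left (by positivity) hπ
  nlinarith

theorem continuous_CT (h : Data ρ M S) : Continuous (CT ρ) := by
  have hM := h.nonneg
  refine continuous_const.mul ?_
  refine continuous_of_uniform_approx_of_continuous fun u hu => ?_
  obtain ⟨ε, hε, hu'⟩ := Metric.mem_uniformity_dist.mp hu
  set δ : ℝ := ε / (8 * π * (M + 1)) with hδ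
  have hδ0 : 0 < δ := by positivity
  set k : ℂ → ℂ := fun w => (starRingEnd ℂ) w / ((max (‖w‖ ^ 2) (δ ^ 2) : ℝ) : ℂ) with hk
  have hmax : ∀ w : ℂ, 0 < max (‖w‖ ^ 2) (δ ^ 2) := fun w => lt_max_of_lt_right (by positivity)
  have hkc : Continuous k := by
    refine Continuous.div (by fun_prop) (by fun_prop) fun w => ?_
    exact_mod_cast (hmax w).ne'
  have hkn : ∀ w, ‖k w‖ = ‖w‖ / max (‖w‖ ^ 2) (δ ^ 2) := fun w => by
    simp only [hk, norm_div, Complex.norm_conj, Complex.norm_real, Real.norm_of_nonneg (hmax w).le]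
  have hkb : ∀ w, ‖k w‖ ≤ δ⁻¹ := fun w => by
    rw [hkn, div_le_iff₀ (hmax w), inv_mul_eq_div, le_div_iff₀ hδ0]
    rcases le_total ‖w‖ δ with h1 | h1
    · exact le_trans (by nlinarith [norm_nonneg w]) (le_max_right _ _)
    · exact le_trans (by nlinarith [norm_nonneg w]) (le_max_left _ _)
  have hkd : ∀ w, ‖w⁻¹ - k w‖ ≤ 2 * kr δ w := fun w => by
    by_cases hw : w ∈ ball (0 : ℂ) δ
    · simp only [kr, indicator_of_mem hw]
      have h1 : ‖k w‖ ≤ ‖w‖⁻¹ := by
        rcases eq_or_ne w 0 with rfl | h0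
        · simp [hk]
        · have := norm_pos_iff.mpr h0
          rw [mem_ball_zero_iff] at hw
          exact (hkb w).trans (inv_anti₀ this hw.le)
      have := norm_sub_le w⁻¹ (k w)
      rw [norm_inv] at this; linarith
    · simp only [kr, indicator_of_notMem hw, mul_zero]
      rw [mem_ball_zero_iff, not_lt] at hw
      have h1 : max (‖w‖ ^ 2) (δ ^ 2) = ‖w‖ ^ 2 := max_eq_left (by gcongr)
      have : k w = w⁻¹ := by
        simp only [hk, h1, Complex.inv_def, Complex.normSq_eq_norm_sq]; push_cast; ring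
      simp [this]
  have hki : ∀ z, Integrable fun ζ => ρ ζ * k (z - ζ) := fun z =>
    (h.integrable_ind _).mono' (h.meas.mul (by fun_prop : Continuous fun ζ => k (z - ζ)).aestronglyMeasurable)
      (ae_of_all _ fun ζ => h.le_ind ζ (hkb _))
  refine ⟨fun z => ∫ ζ, ρ ζ * k (z - ζ), ?_, fun z => hu' ?_⟩
  · refine continuous_of_dominated (fun z => (hki z).1)
      (fun z => ae_of_all _ fun ζ => h.le_ind ζ (hkb _)) (h.integrable_ind _)
      (ae_of_all _ fun ζ => by fun_prop)
  · rw [dist_eq_norm, ← integral_sub (h.integrable_kernel z) (hki z)]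
    have h1 : ‖∫ ζ, (ρ ζ * (z - ζ)⁻¹ - ρ ζ * k (z - ζ))‖ ≤ ∫ ζ, M * (2 * kr δ (z - ζ)) := by
      refine norm_integral_le_of_norm_le (((integrable_kr_sub δ z).const_mul 2).const_mul M)
        (ae_of_all _ fun ζ => ?_)
      rw [← mul_sub, norm_mul]
      exact mul_le_mul (h.bdd ζ) (hkd _) (norm_nonneg _) hM
    rw [integral_const_mul, integral_const_mul, integral_kr_sub hδ0.le] at h1
    refine h1.trans_lt ?_
    have : M * (2 * (2 * π * δ)) = ε * (M / (2 * (M + 1))) := by
      rw [hδ]; field_simp; ring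
    rw [this]
    refine mul_lt_of_lt_one_right hε ?_
    rw [div_lt_one (by positivity)]; linarith

theorem differentiableAt_CT (h : Data ρ M S) {z : ℂ} (hz : ∀ᶠ ζ in 𝓝 z, ρ ζ = 0) :
    DifferentiableAt ℂ (CT ρ) z := by
  obtain ⟨r, hr, hz⟩ := Metric.eventually_nhds_iff_ball.mp hz
  have hfar : ∀ ζ, ζ ∉ ball z r → ∀ x ∈ ball z (r / 2), r / 2 ≤ ‖x - ζ‖ := by
    intro ζ hζ x hx
    rw [mem_ball, not_lt] at hζ
    rw [mem_ball] at hx
    have := dist_triangle ζ x z
    rw [← dist_eq_norm, dist_comm]; linarith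
  have key := hasDerivAt_integral_of_dominated_loc_of_deriv_le (μ := volume)
    (F := fun x ζ => ρ ζ * (x - ζ)⁻¹) (F' := fun x ζ => ρ ζ * (-((x - ζ) ^ 2)⁻¹))
    (bound := S.indicator fun _ => M * ((r / 2) ^ 2)⁻¹) (ball_mem_nhds z (half_pos hr))
    (Eventually.of_forall fun x => (h.integrable_kernel x).1) (h.integrable_kernel z)
    (h.meas.mul (by fun_prop : Measurable fun ζ : ℂ => -((z - ζ) ^ 2)⁻¹).aestronglyMeasurable)
    (ae_of_all _ fun ζ x hx => ?_) (h.integrable_ind _) (ae_of_all _ fun ζ x hx => ?_)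
  · exact key.2.differentiableAt.const_mul _
  · by_cases hζ : ζ ∈ ball z r
    · simp only [hz ζ hζ, zero_mul, norm_zero]
      exact indicator_nonneg (fun _ _ => mul_nonneg h.nonneg (by positivity)) _
    · refine h.le_ind ζ ?_
      rw [norm_neg, norm_inv, norm_pow]
      exact inv_anti₀ (by positivity) (by gcongr; exact hfar ζ hζ x hx)
  · by_cases hζ : ζ ∈ ball z r
    · simp only [hz ζ hζ, zero_mul]; exact hasDerivAt_const _ _
    · have hne : x - ζ ≠ 0 := norm_pos_iff.mp ((half_pos hr).trans_le (hfar ζ hζ x hx))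
      have := (((hasDerivAt_id x).sub_const ζ).inv hne).const_mul (ρ ζ)
      refine HasDerivAt.congr_deriv (f' := _) this ?_
      simp only [id]; ring

end Data

theorem exists_data_dbar {φ : ℂ → ℂ} (h : ContDiff ℝ 1 φ) (hc : HasCompactSupport φ) :
    ∃ M, Data (dbar φ) M (tsupport φ) := by
  obtain ⟨M, hM⟩ := (continuous_dbar h).bounded_above_of_compact_support (hasCompactSupport_dbar hc)
  exact ⟨M, (continuous_dbar h).aestronglyMeasurable, hM,
    fun ζ hζ => dbar_eq_zero_of_eventuallyEq (notMem_tsupport_iff_eventuallyEq.mp hζ),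
    (isClosed_tsupport φ).measurableSet, hc.isCompact.measure_lt_top.ne⟩

/-- If `ρ` is the `dbar` derivative of `ψ` near `z`, then `ψ - CT ρ` is holomorphic at `z`. -/
theorem Data.differentiableAt_sub_CT {ρ : ℂ → ℂ} {M : ℝ} {S : Set ℂ} (h : Data ρ M S)
    {ψ : ℂ → ℂ} {z : ℂ} (hψ : ∀ᶠ w in 𝓝 z, ContDiffAt ℝ 1 ψ w ∧ dbar ψ w = ρ w) :
    DifferentiableAt ℂ (fun w => ψ w - CT ρ w) z := by
  obtain ⟨r, hr, hψ⟩ := Metric.eventually_nhds_iff_ball.mp hψ
  let β : ContDiffBump z := ⟨r / 3, r / 2, by positivity, by linarith⟩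
  set φ : ℂ → ℂ := fun w => (β w : ℂ) * ψ w with hφ
  have hβ : ContDiff ℝ 1 fun w => (β w : ℂ) := Complex.ofRealCLM.contDiff.comp β.contDiff
  have hβc : HasCompactSupport fun w => (β w : ℂ) :=
    β.hasCompactSupport.comp_left (g := fun x : ℝ => (x : ℂ)) (by simp)
  have hφd : ContDiff ℝ 1 φ := by
    rw [contDiff_iff_contDiffAt]
    intro w
    by_cases hw : w ∈ ball z r
    · exact hβ.contDiffAt.mul (hψ w hw).1
    · have : φ =ᶠ[𝓝 w] fun _ => 0 := by
        have hw' : w ∈ (closedBall z (r / 2))ᶜ := fun h' =>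
          hw (closedBall_subset_ball (by linarith) h')
        filter_upwards [isClosed_closedBall.isOpen_compl.mem_nhds hw'] with x hx
        have : β x = 0 := β.zero_of_le_dist (le_of_lt (by simpa using hx))
        simp [hφ, this]
      exact contDiffAt_const.congr_of_eventuallyEq this
  have hφc : HasCompactSupport φ := hβc.mul_right
  obtain ⟨M', hd⟩ := exists_data_dbar hφd hφc
  have hsub : Data (fun w => dbar φ w - ρ w) (M' + M) (tsupport φ ∪ S) :=
    ⟨hd.meas.sub h.meas, fun ζ => (norm_sub_le _ _).trans (add_le_add (hd.bdd ζ) (h.bdd ζ)),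
      fun ζ hζ => by rw [hd.supp ζ fun h' => hζ (Or.inl h'), h.supp ζ fun h' => hζ (Or.inr h'), sub_zero],
      hd.mS.union h.mS, ((measure_union_le _ _).trans_lt
        (ENNReal.add_lt_top.mpr ⟨hd.fin.lt_top, h.fin.lt_top⟩)).ne⟩
  have heq : ∀ w ∈ ball z (r / 3), φ =ᶠ[𝓝 w] ψ := fun w hw => by
    filter_upwards [isOpen_ball.mem_nhds hw] with x hx
    have : β x = 1 := β.one_of_mem_closedBall (ball_subset_closedBall hx)
    simp [hφ, this]
  have h1 := hsub.differentiableAt_CT (z := z) (by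
    filter_upwards [ball_mem_nhds z (by positivity : 0 < r / 3)] with w hw
    rw [dbar_congr (heq w hw), (hψ w (ball_subset_ball (by linarith) hw)).2, sub_self])
  refine h1.congr_of_eventuallyEq ?_
  filter_upwards [ball_mem_nhds z (by positivity : 0 < r / 3)] with w hw
  rw [← (heq w hw).eq_of_nhds, ← pompeiu hφd hφc w]
  simp only [CT, sub_mul]
  rw [integral_sub (hd.integrable_kernel w) (h.integrable_kernel w)]
  ring

end Pool.Agent.Lib.Mergelyan
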