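import Pool.Agent.Lib.Mergelyan.PA
import Pool.Agent.Lib.Mergelyan.Cauchy

/-! The approximate Cauchy kernel of Mergelyan's proof, at unit scale, without the Riemann map. -/

open MeasureTheory Set Metric Filter Topology
open scoped Real

namespace Pool.Agent.Lib.Mergelyan

theorem re_pos_of_norm_le {u : ℂ} (h : ‖u‖ ≤ 1 / 3) : 0 < (1 - u).re := by
  have := (Complex.re_le_norm u).trans h
  simp only [Complex.sub_re, Complex.one_re]; linarith

theorem log_mul_of_re_pos {x y : ℂ} (hx : 0 < x.re) (hy : 0 < y.re) :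
    Complex.log (x * y) = Complex.log x + Complex.log y := by
  have hx0 : x ≠ 0 := by rintro rfl; simp at hx
  have hy0 : y ≠ 0 := by rintro rfl; simp at hy
  rw [Complex.log_mul_eq_add_log_iff hx0 hy0]
  have h1 := abs_lt.mp (Complex.abs_arg_lt_pi_div_two_iff.mpr (Or.inl hx))
  have h2 := abs_lt.mp (Complex.abs_arg_lt_pi_div_two_iff.mpr (Or.inl hy))
  constructor <;> linarith [h1.1, h1.2, h2.1, h2.2]

theorem exists_far_in_component {K : Set ℂ} (hK : IsCompact K) (hc : IsPreconnected Kᶜ) {a : ℂ}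
    (ha : a ∉ K) : ∃ b ∈ connectedComponentIn (Kᶜ ∩ ball a 1) a, 1 / 2 ≤ ‖b - a‖ := by
  by_contra hn
  push Not at hn
  set F := Kᶜ ∩ ball a 1 with hF
  have haF : a ∈ F := ⟨ha, mem_ball_self one_pos⟩
  have hFo : IsOpen F := hK.isClosed.isOpen_compl.inter isOpen_ball
  have hW : connectedComponentIn F a ⊆ closedBall a (1 / 2) := fun b hb => by
    rw [mem_closedBall, dist_eq_norm]; exact (hn b hb).le
  have hsub : Kᶜ ⊆ connectedComponentIn F a := by
    refine hc.subset_of_closure_inter_subset hFo.connectedComponentIn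
      ⟨a, ha, mem_connectedComponentIn haF⟩ ?_
    rintro x ⟨hx1, hx2⟩
    have hxF : x ∈ F := ⟨hx2, closedBall_subset_ball (by norm_num)
      (isClosed_closedBall.closure_subset_iff.mpr hW hx1)⟩
    have hp : IsPreconnected (insert x (connectedComponentIn F a)) :=
      isPreconnected_connectedComponentIn.subset_closure (subset_insert _ _)
        (insert_subset hx1 subset_closure)
    exact hp.subset_connectedComponentIn (mem_insert_of_mem _ (mem_connectedComponentIn haF))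
      (insert_subset hxF (connectedComponentIn_subset _ _)) (mem_insert _ _)
  have hb : Bornology.IsBounded (univ : Set ℂ) := by
    rw [← union_compl_self K]
    exact hK.isBounded.union (isBounded_closedBall.subset (hsub.trans hW))
  exact NormedSpace.unbounded_univ ℝ ℂ hb

theorem exists_log_ratio {K : Set ℂ} (hK : IsCompact K) (hc : IsPreconnected Kᶜ) {a b : ℂ}
    (ha : a ∉ K) (hb : b ∈ connectedComponentIn (Kᶜ ∩ ball a 1) a) :
    ∃ L, PA K L ∧ ∀ z ∈ K, Complex.exp (L z) * (z - a) = z - b ∧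
      (3 ≤ ‖z - a‖ → L z = Complex.log ((z - b) * (z - a)⁻¹)) := by
  have hre : ∀ x ∈ ball a 1, ∀ z, 3 ≤ ‖z - a‖ → 0 < ((z - x) * (z - a)⁻¹).re := by
    intro x hx z hz
    have h0 : z - a ≠ 0 := norm_pos_iff.mp (by linarith)
    have : (z - x) * (z - a)⁻¹ = 1 - (x - a) * (z - a)⁻¹ := by field_simp; ring
    rw [this]
    refine re_pos_of_norm_le ?_
    rw [mem_ball, dist_eq_norm] at hx
    rw [norm_mul, norm_inv, mul_inv_le_iff₀ (by linarith)]; linarith
  let P : ℂ → ℂ → Prop := fun x y => ∃ L, PA K L ∧ ∀ z ∈ K, Complex.exp (L z) * (z - x) = z - y ∧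
    (3 ≤ ‖z - a‖ → L z = Complex.log ((z - y) * (z - a)⁻¹) - Complex.log ((z - x) * (z - a)⁻¹))
  have step : ∀ x y : ℂ, x ∉ K → x ∈ ball a 1 →
      (∀ z ∈ K, ‖(y - x) * (z - x)⁻¹‖ ≤ 1 / 3 ∧ z ≠ x) → P x y := by
    intro x y hx hx1 h
    refine ⟨fun z => Complex.log (1 - (y - x) * (z - x)⁻¹),
      ((PA.pole hK hc hx).const_mul hK _).log_one_sub hK fun z hz => (h z hz).1, fun z hz => ?_⟩
    have h1 := sub_ne_zero.mpr (h z hz).2
    have h2 := re_pos_of_norm_le (h z hz).1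
    have h3 : 1 - (y - x) * (z - x)⁻¹ ≠ 0 := by intro e; rw [e] at h2; simp at h2
    refine ⟨by rw [Complex.exp_log h3]; field_simp; ring, fun hz3 => ?_⟩
    rw [eq_sub_iff_add_eq, ← log_mul_of_re_pos h2 (hre x hx1 z hz3)]
    congr 1; field_simp; ring
  have hsub := connectedComponentIn_subset (Kᶜ ∩ ball a 1) a
  have key : P a b := by
    refine isPreconnected_connectedComponentIn.induction₂' P (fun x hx => ?_) ?_
      (mem_connectedComponentIn (mem_inter ha (mem_ball_self one_pos))) hb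
    · filter_upwards [nhdsWithin_le_nhds (eventually_close hK.isClosed (hsub hx).1),
        self_mem_nhdsWithin] with y hy hy'
      exact ⟨step x y (hsub hx).1 (hsub hx).2 fun z hz => ⟨(hy z hz).1, (hy z hz).2.2.1⟩,
        step y x (hsub hy').1 (hsub hy').2 fun z hz => ⟨(hy z hz).2.1, (hy z hz).2.2.2⟩⟩
    · rintro x y w - - - ⟨L1, h1, h1'⟩ ⟨L2, h2, h2'⟩
      refine ⟨fun z => L1 z + L2 z, h1.add h2, fun z hz => ⟨?_, fun hz3 => ?_⟩⟩
      · rw [Complex.exp_add, ← (h2' z hz).1, ← (h1' z hz).1]; ring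
      · simp only [(h1' z hz).2 hz3, (h2' z hz).2 hz3]; ring
  obtain ⟨L, hL, hL'⟩ := key
  refine ⟨L, hL, fun z hz => ⟨(hL' z hz).1, fun hz3 => ?_⟩⟩
  have h0 : z - a ≠ 0 := norm_pos_iff.mp (by linarith)
  rw [(hL' z hz).2 hz3, mul_inv_cancel₀ h0, Complex.log_one, sub_zero]

theorem norm_sqrt_sub_one {u : ℂ} (hu : ‖u‖ ≤ 1 / 3) :
    ‖Complex.exp (Complex.log (1 - u) / 2) - 1‖ ≤ 1 / 3 := by
  set e := Complex.exp (Complex.log (1 - u) / 2) with he
  have h2 := re_pos_of_norm_le hu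
  have h3 : 1 - u ≠ 0 := by intro e; rw [e] at h2; simp at h2
  have hsq : e ^ 2 = 1 - u := by
    rw [he, sq, ← Complex.exp_add, add_halves, Complex.exp_log h3]
  have hre : 0 ≤ e.re := by
    rw [he, Complex.exp_re]
    refine mul_nonneg (Real.exp_pos _).le (Real.cos_nonneg_of_mem_Icc ?_)
    have h1 : (Complex.log (1 - u) / 2).im = Complex.arg (1 - u) / 2 := by simp [Complex.log_im]
    rw [h1]
    constructor <;> linarith [Complex.neg_pi_lt_arg (1 - u), Complex.arg_le_pi (1 - u)]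
  have h4 : 1 ≤ ‖e + 1‖ := le_trans (by simp [hre]) (Complex.re_le_norm (e + 1))
  have h5 : ‖e - 1‖ * ‖e + 1‖ = ‖u‖ := by
    rw [← norm_mul, show (e - 1) * (e + 1) = -u by linear_combination hsq, norm_neg]
  nlinarith [norm_nonneg (e - 1)]

theorem exists_hole {K : Set ℂ} (hK : IsCompact K) (hc : IsPreconnected Kᶜ) {a : ℂ} (ha : a ∉ K) :
    ∃ g c, PA K g ∧ ‖c - a‖ ≤ 1 / 2 ∧ ∀ z ∈ K, ‖g z‖ ≤ 240 ∧
      (3 ≤ ‖z - a‖ → ‖g z - (z - c)⁻¹‖ ≤ (‖z - c‖ ^ 3)⁻¹) := by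
  obtain ⟨b, hb, hba⟩ := exists_far_in_component hK hc ha
  obtain ⟨L, hL, hL'⟩ := exists_log_ratio hK hc ha hb
  have hb1 : ‖b - a‖ < 1 := by
    have := (connectedComponentIn_subset _ _ hb).2
    rwa [mem_ball, dist_eq_norm] at this
  set d := (b - a) / 2 with hd
  set c := a + d with hc'
  have hdn : ‖d‖ = ‖b - a‖ / 2 := by rw [hd, norm_div]; simp
  have hd0 : d ≠ 0 := norm_pos_iff.mp (by linarith)
  set s : ℂ → ℂ := fun z => (z - a) * Complex.exp (L z / 2) with hs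
  have hsP : PA K s := (PA.id'.sub hK (PA.const a)).mul hK
    (((hL.const_mul hK (1 / 2)).congr fun z _ => by ring).exp hK)
  have hsq : ∀ z ∈ K, s z ^ 2 = (z - c) ^ 2 - d ^ 2 := fun z hz => by
    have h1 : Complex.exp (L z / 2) ^ 2 = Complex.exp (L z) := by
      rw [sq, ← Complex.exp_add, add_halves]
    have h2 := (hL' z hz).1
    simp only [hs, mul_pow, h1, hc', hd]
    linear_combination (z - a) * h2
  have hca : ‖c - a‖ ≤ 1 / 2 := by rw [hc', add_sub_cancel_left]; linarith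
  have hfar : ∀ z ∈ K, 3 ≤ ‖z - a‖ → 5 / 2 ≤ ‖z - c‖ ∧
      ‖2 * (d ^ 2)⁻¹ * (z - c - s z) - (z - c)⁻¹‖ ≤ (‖z - c‖ ^ 3)⁻¹ := by
    intro z hz hz3
    have hw : 5 / 2 ≤ ‖z - c‖ := by
      have := norm_sub_le_norm_sub_add_norm_sub z c a
      linarith
    refine ⟨hw, ?_⟩
    set w := z - c with hwd
    have hw0 : w ≠ 0 := norm_pos_iff.mp (by linarith)
    have hza : z - a ≠ 0 := norm_pos_iff.mp (by linarith)
    have hu : ‖(b - a) * (z - a)⁻¹‖ ≤ 1 / 3 := by
      rw [norm_mul, norm_inv, mul_inv_le_iff₀ (by linarith)]; linarith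
    have he := norm_sqrt_sub_one hu
    rw [show 1 - (b - a) * (z - a)⁻¹ = (z - b) * (z - a)⁻¹ by field_simp; ring,
      ← (hL' z hz).2 hz3] at he
    set e := Complex.exp (L z / 2) with hed
    have hsw : s z = (w + d) * e := by simp only [hs, hwd, hc', hed]; ring
    have h1 : ‖s z - w‖ ≤ ‖w‖ := by
      have e1 : s z - w = (w + d) * (e - 1) + d := by rw [hsw]; ring
      have e2 : ‖(w + d) * (e - 1)‖ ≤ (‖w‖ + ‖d‖) * (1 / 3) := by
        rw [norm_mul]; exact mul_le_mul (norm_add_le _ _) he (norm_nonneg _) (by positivity)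
      rw [e1]
      linarith [norm_add_le ((w + d) * (e - 1)) d]
    have h2 : ‖w‖ ≤ ‖w + s z‖ := by
      have := norm_sub_le (w + s z) (s z - w)
      rw [show w + s z - (s z - w) = 2 * w by ring, norm_mul, Complex.norm_ofNat] at this
      linarith
    have h3 : w + s z ≠ 0 := norm_pos_iff.mp (by linarith)
    have h4 : w - s z = d ^ 2 * (w + s z)⁻¹ := by
      field_simp; linear_combination -(hsq z hz)
    have h5 : 2 * (d ^ 2)⁻¹ * (w - s z) - w⁻¹ = d ^ 2 * (w * (w + s z) ^ 2)⁻¹ := by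
      have : 2 * (d ^ 2)⁻¹ * (w - s z) - w⁻¹ = (w - s z) * (w * (w + s z))⁻¹ := by
        conv_lhs => rw [h4]
        field_simp; ring
      rw [this, h4]; field_simp
    rw [h5, norm_mul, norm_inv, norm_mul, norm_pow, norm_pow]
    have hwp : 0 < ‖w‖ := by linarith
    calc _ ≤ 1 * (‖w‖ * ‖w‖ ^ 2)⁻¹ := by
          gcongr
          nlinarith [norm_nonneg d]
      _ = _ := by field_simp
  refine ⟨fun z => 2 * (d ^ 2)⁻¹ * (z - c - s z), c,
    ((PA.id'.sub hK (PA.const c)).sub hK hsP).const_mul hK _, hca, fun z hz => ⟨?_, fun h => (hfar z hz h).2⟩⟩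
  by_cases h : 3 ≤ ‖z - a‖
  · obtain ⟨h1, h2⟩ := hfar z hz h
    have h3 := norm_add_le (2 * (d ^ 2)⁻¹ * (z - c - s z) - (z - c)⁻¹) (z - c)⁻¹
    rw [sub_add_cancel, norm_inv] at h3
    have h4 : ‖z - c‖⁻¹ ≤ 1 := inv_le_one_of_one_le₀ (by linarith)
    have h5 : (‖z - c‖ ^ 3)⁻¹ ≤ 1 := inv_le_one_of_one_le₀ (one_le_pow₀ (by linarith))
    linarith
  · have hw : ‖z - c‖ ≤ 7 / 2 := by
      have := norm_sub_le_norm_sub_add_norm_sub z a c
      rw [norm_sub_rev a c] at this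
      linarith [not_le.mp h]
    have hs4 : ‖s z‖ ≤ 4 := by
      have h1 : ‖s z‖ ^ 2 ≤ ‖z - c‖ ^ 2 + ‖d‖ ^ 2 := by
        rw [← norm_pow, hsq z hz, ← norm_pow, ← norm_pow]; exact norm_sub_le _ _
      nlinarith [norm_nonneg (z - c), norm_nonneg d, norm_nonneg (s z)]
    have h2 : (‖d‖ ^ 2)⁻¹ ≤ 16 := by
      rw [inv_le_comm₀ (by positivity) (by norm_num)]; nlinarith
    rw [norm_mul, norm_mul, norm_inv, norm_pow, Complex.norm_ofNat]
    calc _ ≤ (2 : ℝ) * 16 * (15 / 2) := by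
          gcongr
          linarith [norm_sub_le (z - c) (s z)]
      _ = 240 := by norm_num

/-- The integrable majorant of the error of the approximate kernel. -/
noncomputable def maj (w : ℂ) : ℝ := kr 12 w + 10 ^ 9 * (1 + ‖w‖) ^ (-3 : ℝ)

theorem integrable_maj : Integrable maj :=
  (integrable_kr 12).add ((integrable_one_add_norm (E := ℂ) (by simp; norm_num)).const_mul _)

theorem maj_nonneg (w : ℂ) : 0 ≤ maj w := add_nonneg (kr_nonneg _ _) (by positivity)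

theorem exists_kernel {K : Set ℂ} (hK : IsCompact K) (hc : IsPreconnected Kᶜ) {a : ℂ} (ha : a ∉ K) :
    ∃ g c, PA K g ∧ ∀ ζ ∈ ball a 3, ∀ z ∈ K,
      ‖g z + (ζ - c) * g z ^ 2 - (z - ζ)⁻¹‖ ≤ maj (z - ζ) := by
  obtain ⟨g, c, hg, hca, h⟩ := exists_hole hK hc ha
  refine ⟨g, c, hg, fun ζ hζ z hz => ?_⟩
  rw [mem_ball, dist_eq_norm] at hζ
  obtain ⟨h1, h2⟩ := h z hz
  have ht : ‖ζ - c‖ ≤ 4 := by
    have := norm_sub_le_norm_sub_add_norm_sub ζ a c
    rw [norm_sub_rev a c] at this; linarith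
  have hpow : (1 + ‖z - ζ‖) ^ (-3 : ℝ) = ((1 + ‖z - ζ‖) ^ 3)⁻¹ := by
    rw [Real.rpow_neg (by positivity)]; norm_cast
  rw [maj, hpow]
  by_cases hn : z - ζ ∈ ball (0 : ℂ) 12
  · simp only [kr, indicator_of_mem hn]
    rw [mem_ball_zero_iff] at hn
    have a1 : ‖g z + (ζ - c) * g z ^ 2‖ ≤ 240 + 4 * 240 ^ 2 := by
      refine (norm_add_le _ _).trans (add_le_add h1 ?_)
      rw [norm_mul, norm_pow]; gcongr
    have a2 : (13 ^ 3 : ℝ)⁻¹ ≤ ((1 + ‖z - ζ‖) ^ 3)⁻¹ :=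
      inv_anti₀ (by positivity) (by gcongr; linarith)
    have a3 := norm_sub_le (g z + (ζ - c) * g z ^ 2) (z - ζ)⁻¹
    rw [norm_inv] at a3
    linarith
  · simp only [kr, indicator_of_notMem hn, zero_add]
    rw [mem_ball_zero_iff, not_lt] at hn
    set ρ := ‖z - ζ‖ with hρ
    have hza : 3 ≤ ‖z - a‖ := by
      have := norm_sub_le_norm_sub_add_norm_sub z a ζ
      rw [norm_sub_rev a ζ] at this; linarith
    have hw : ρ - 4 ≤ ‖z - c‖ := by
      have := norm_sub_le_norm_sub_add_norm_sub z c ζ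
      rw [norm_sub_rev c ζ] at this; linarith
    set w := z - c with hwd
    set t := ζ - c with htd
    set e := g z - w⁻¹ with hed
    have he : ‖e‖ ≤ (‖w‖ ^ 3)⁻¹ := h2 hza
    have hw0 : w ≠ 0 := norm_pos_iff.mp (by linarith)
    have hzζ : z - ζ ≠ 0 := norm_pos_iff.mp (by linarith)
    have e0 : z - ζ = w - t := by simp only [hwd, htd]; ring
    have e1 : g z + t * g z ^ 2 - (z - ζ)⁻¹ =
        e + t * (e * (2 * w⁻¹ + e)) - t ^ 2 * (w ^ 2 * (z - ζ))⁻¹ := by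
      have : g z = w⁻¹ + e := by simp only [hed]; ring
      rw [this, e0]
      rw [e0] at hzζ
      field_simp; ring
    set m := (1 + ρ) / 2 with hm
    have hm0 : 0 < m := by positivity
    have hmw : m ≤ ‖w‖ := by rw [hm]; linarith
    have hmρ : m ≤ ρ := by rw [hm]; linarith
    have b1 : ‖e‖ ≤ (m ^ 3)⁻¹ := he.trans (inv_anti₀ (by positivity) (by gcongr))
    have b2 : ‖2 * w⁻¹ + e‖ ≤ 3 := by
      have c1 : ‖w‖⁻¹ ≤ 1 := inv_le_one_of_one_le₀ (by linarith)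
      have c2 : (‖w‖ ^ 3)⁻¹ ≤ 1 := inv_le_one_of_one_le₀ (one_le_pow₀ (by linarith))
      have := norm_add_le (2 * w⁻¹) e
      rw [norm_mul, norm_inv, Complex.norm_ofNat] at this
      linarith
    have b3 : ‖t * (e * (2 * w⁻¹ + e))‖ ≤ 4 * ((m ^ 3)⁻¹ * 3) := by
      rw [norm_mul, norm_mul]; gcongr
    have b4 : ‖t ^ 2 * (w ^ 2 * (z - ζ))⁻¹‖ ≤ 4 ^ 2 * (m ^ 2 * m)⁻¹ := by
      rw [norm_mul, norm_inv, norm_mul, norm_pow, norm_pow]; gcongr
    have b5 : (m ^ 3)⁻¹ = 8 * ((1 + ρ) ^ 3)⁻¹ := by rw [hm]; field_simp; norm_num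
    have b6 : 0 ≤ ((1 + ρ) ^ 3)⁻¹ := by positivity
    rw [show m ^ 2 * m = m ^ 3 by ring] at b4
    rw [e1]
    linarith [norm_sub_le (e + t * (e * (2 * w⁻¹ + e))) (t ^ 2 * (w ^ 2 * (z - ζ))⁻¹),
      norm_add_le e (t * (e * (2 * w⁻¹ + e)))]

end Pool.Agent.Lib.Mergelyan
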