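import Mathlib

/-! Uniform approximation by polynomials on a compact plane set; Runge's pole pushing. -/

open Set Metric Filter Topology
open scoped NNReal

namespace Pool.Agent.Lib.Mergelyan

/-- `F` is a uniform limit of polynomials on `K`. -/
def PA (K : Set ℂ) (F : ℂ → ℂ) : Prop :=
  ∀ ε > 0, ∃ p : Polynomial ℂ, ∀ z ∈ K, ‖F z - p.eval z‖ ≤ ε

namespace PA
variable {K : Set ℂ} {F G : ℂ → ℂ}

theorem poly (p : Polynomial ℂ) : PA K fun z => p.eval z :=
  fun _ hε => ⟨p, fun _ _ => by simpa using hε.le⟩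

theorem const (c : ℂ) : PA K fun _ => c := by simpa using poly (K := K) (Polynomial.C c)

theorem id' : PA K fun z => z := by simpa using poly (K := K) Polynomial.X

theorem congr (h : PA K F) (e : ∀ z ∈ K, G z = F z) : PA K G := fun ε hε => by
  obtain ⟨p, hp⟩ := h ε hε
  exact ⟨p, fun z hz => by rw [e z hz]; exact hp z hz⟩

theorem of_approx (h : ∀ ε > 0, ∃ G, PA K G ∧ ∀ z ∈ K, ‖F z - G z‖ ≤ ε) : PA K F := fun ε hε => by
  obtain ⟨G, hG, h1⟩ := h (ε / 2) (half_pos hε)
  obtain ⟨p, hp⟩ := hG (ε / 2) (half_pos hε)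
  refine ⟨p, fun z hz => ?_⟩
  have := norm_sub_le_norm_sub_add_norm_sub (F z) (G z) (p.eval z)
  linarith [h1 z hz, hp z hz]

theorem add (h1 : PA K F) (h2 : PA K G) : PA K fun z => F z + G z := fun ε hε => by
  obtain ⟨p, hp⟩ := h1 (ε / 2) (half_pos hε)
  obtain ⟨q, hq⟩ := h2 (ε / 2) (half_pos hε)
  refine ⟨p + q, fun z hz => ?_⟩
  have := norm_add_le (F z - p.eval z) (G z - q.eval z)
  rw [Polynomial.eval_add, show F z + G z - (p.eval z + q.eval z) =
    F z - p.eval z + (G z - q.eval z) by ring]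
  linarith [hp z hz, hq z hz]

theorem continuousOn (h : PA K F) : ContinuousOn F K := by
  refine continuousOn_of_uniform_approx_of_continuousOn fun u hu => ?_
  obtain ⟨ε, hε, hu'⟩ := Metric.mem_uniformity_dist.mp hu
  obtain ⟨p, hp⟩ := h (ε / 2) (half_pos hε)
  exact ⟨fun z => p.eval z, p.continuous.continuousOn, fun z hz => hu' (by
    rw [dist_eq_norm]; linarith [hp z hz])⟩

theorem bdd (hK : IsCompact K) (h : PA K F) : ∃ M, 0 < M ∧ ∀ z ∈ K, ‖F z‖ ≤ M := by
  obtain ⟨M, hM⟩ := hK.exists_bound_of_continuousOn h.continuousOn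
  exact ⟨max M 1, by positivity, fun z hz => (hM z hz).trans (le_max_left _ _)⟩

theorem mul (hK : IsCompact K) (h1 : PA K F) (h2 : PA K G) : PA K fun z => F z * G z := by
  intro ε hε
  obtain ⟨A, hA, hA'⟩ := h1.bdd hK
  obtain ⟨B, hB, hB'⟩ := h2.bdd hK
  obtain ⟨p, hp⟩ := h1 (ε / (2 * (B + 1))) (by positivity)
  obtain ⟨q, hq⟩ := h2 (min 1 (ε / (2 * A))) (by positivity)
  refine ⟨p * q, fun z hz => ?_⟩
  have e : F z * G z - (p * q).eval z =
      F z * (G z - q.eval z) + (F z - p.eval z) * q.eval z := by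
    rw [Polynomial.eval_mul]; ring
  have hq1 : ‖q.eval z‖ ≤ B + 1 := by
    have := norm_sub_le (G z) (G z - q.eval z)
    rw [sub_sub_cancel] at this
    linarith [hB' z hz, (hq z hz).trans (min_le_left _ _)]
  have a1 : ‖F z * (G z - q.eval z)‖ ≤ A * (ε / (2 * A)) := by
    rw [norm_mul]
    exact mul_le_mul (hA' z hz) ((hq z hz).trans (min_le_right _ _)) (norm_nonneg _) hA.le
  have a2 : ‖(F z - p.eval z) * q.eval z‖ ≤ ε / (2 * (B + 1)) * (B + 1) := by
    rw [norm_mul]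
    exact mul_le_mul (hp z hz) hq1 (norm_nonneg _) (by positivity)
  have e1 : A * (ε / (2 * A)) = ε / 2 := by field_simp
  have e2 : ε / (2 * (B + 1)) * (B + 1) = ε / 2 := by field_simp
  rw [e]
  linarith [norm_add_le (F z * (G z - q.eval z)) ((F z - p.eval z) * q.eval z)]

theorem const_mul (hK : IsCompact K) (c : ℂ) (h : PA K F) : PA K fun z => c * F z :=
  (const c).mul hK h

theorem sub (hK : IsCompact K) (h1 : PA K F) (h2 : PA K G) : PA K fun z => F z - G z :=
  (h1.add (h2.const_mul hK (-1))).congr fun _ _ => by ring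

theorem pow (hK : IsCompact K) (h : PA K F) (n : ℕ) : PA K fun z => F z ^ n := by
  induction n with
  | zero => simpa using const 1
  | succ n ih => exact (ih.mul hK h).congr fun _ _ => pow_succ _ _

theorem sum {ι : Type*} (s : Finset ι) {F : ι → ℂ → ℂ} (h : ∀ i ∈ s, PA K (F i)) :
    PA K fun z => ∑ i ∈ s, F i z := by
  classical
  induction s using Finset.induction_on with
  | empty => simpa using const 0
  | insert i s hi ih =>
    exact ((h i (Finset.mem_insert_self _ _)).add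
      (ih fun j hj => h j (Finset.mem_insert_of_mem hj))).congr fun _ _ => Finset.sum_insert hi

theorem comp_holo (hK : IsCompact K) {u : ℂ → ℂ} (h : PA K u) {r R : ℝ} (hr : 0 ≤ r)
    (hrR : r < R) (hu : ∀ z ∈ K, ‖u z‖ ≤ r) (hF : DifferentiableOn ℂ F (closedBall 0 R)) :
    PA K fun z => F (u z) := by
  lift R to ℝ≥0 using (hr.trans hrR.le)
  have hR : 0 < R := by exact_mod_cast hr.trans_lt hrR
  have h1 := hF.hasFPowerSeriesOnBall hR
  set r' : ℝ≥0 := ⟨(r + R) / 2, by positivity⟩ with hr'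
  have hr1 : (r' : ℝ) = (r + R) / 2 := rfl
  have h2 := h1.tendstoUniformlyOn (r' := r') (by
    have : (r' : ℝ) < R := by rw [hr1]; linarith
    exact_mod_cast this)
  refine of_approx fun ε hε => ?_
  obtain ⟨n, hn⟩ := ((Metric.tendstoUniformlyOn_iff.mp h2) ε hε).exists
  refine ⟨fun z => (cauchyPowerSeries F 0 R).partialSum n (u z), ?_, fun z hz => ?_⟩
  · refine (sum (Finset.range n) fun k _ =>
      ((h.pow hK k).const_mul hK ((cauchyPowerSeries F 0 R).coeff k))).congr fun z _ => ?_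
    simp only [FormalMultilinearSeries.partialSum,
      FormalMultilinearSeries.apply_eq_pow_smul_coeff, smul_eq_mul, mul_comm]
  · have := hn (u z) (by rw [mem_ball_zero_iff, hr1]; linarith [hu z hz])
    rw [zero_add, dist_eq_norm] at this
    exact this.le

theorem exp (hK : IsCompact K) (h : PA K F) : PA K fun z => Complex.exp (F z) := by
  obtain ⟨M, hM, hM'⟩ := h.bdd hK
  exact h.comp_holo hK hM.le (lt_add_one M) hM' Complex.differentiable_exp.differentiableOn

theorem inv_one_sub (hK : IsCompact K) (h : PA K F) (hu : ∀ z ∈ K, ‖F z‖ ≤ 1 / 3) :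
    PA K fun z => (1 - F z)⁻¹ := by
  refine h.comp_holo (F := fun w => (1 - w)⁻¹) hK (by norm_num) (by norm_num : (1 / 3 : ℝ) < 1 / 2)
    hu (DifferentiableOn.inv (by fun_prop) fun w hw => ?_)
  rw [mem_closedBall_zero_iff] at hw
  intro h0
  rw [sub_eq_zero] at h0
  rw [← h0] at hw; norm_num at hw

theorem log_one_sub (hK : IsCompact K) (h : PA K F) (hu : ∀ z ∈ K, ‖F z‖ ≤ 1 / 3) :
    PA K fun z => Complex.log (1 - F z) := by
  refine h.comp_holo (F := fun w => Complex.log (1 - w)) hK (by norm_num)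
    (by norm_num : (1 / 3 : ℝ) < 1 / 2) hu (DifferentiableOn.clog (by fun_prop) fun w hw => ?_)
  rw [mem_closedBall_zero_iff] at hw
  left
  have := (Complex.re_le_norm w).trans hw
  simp only [Complex.sub_re, Complex.one_re]; linarith

end PA

/-- Near a point off a closed set, the two poles are close compared with the distance to `K`. -/
theorem eventually_close {K : Set ℂ} (hK : IsClosed K) {a : ℂ} (ha : a ∉ K) :
    ∀ᶠ b in 𝓝 a, ∀ z ∈ K, ‖(b - a) * (z - a)⁻¹‖ ≤ 1 / 3 ∧ ‖(a - b) * (z - b)⁻¹‖ ≤ 1 / 3 ∧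
      z ≠ a ∧ z ≠ b := by
  obtain ⟨δ, hδ, hb⟩ := Metric.isOpen_iff.mp hK.isOpen_compl a ha
  filter_upwards [ball_mem_nhds a (by positivity : 0 < δ / 4)] with b hb' z hz
  have h1 : δ ≤ ‖z - a‖ := by
    by_contra h
    exact hb (by rw [mem_ball, dist_eq_norm]; exact not_le.mp h) hz
  rw [mem_ball, dist_eq_norm] at hb'
  have h2 : 3 * δ / 4 ≤ ‖z - b‖ := by
    have := norm_sub_le_norm_sub_add_norm_sub z b a
    linarith
  refine ⟨?_, ?_, fun e => ?_, fun e => ?_⟩
  · rw [norm_mul, norm_inv, mul_inv_le_iff₀ (by linarith)]; linarith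
  · rw [norm_mul, norm_inv, mul_inv_le_iff₀ (by linarith), norm_sub_rev]; linarith
  · rw [e, sub_self, norm_zero] at h1; linarith
  · rw [e, sub_self, norm_zero] at h2; linarith

theorem exists_far {K : Set ℂ} (hK : IsCompact K) :
    ∃ a : ℂ, a ∉ K ∧ a ≠ 0 ∧ ∀ z ∈ K, ‖z * a⁻¹‖ ≤ 1 / 3 := by
  obtain ⟨R, hR0, hR⟩ := hK.isBounded.subset_ball_lt 0 0
  have hn : ‖((3 * R : ℝ) : ℂ)‖ = 3 * R := by
    rw [Complex.norm_real, Real.norm_of_nonneg (by positivity)]
  refine ⟨(3 * R : ℝ), fun h => ?_, by exact_mod_cast (by positivity : 3 * R ≠ 0), fun z hz => ?_⟩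
  · have := hR h; rw [mem_ball_zero_iff, hn] at this; linarith
  · have := hR hz
    rw [mem_ball_zero_iff] at this
    rw [norm_mul, norm_inv, hn, mul_inv_le_iff₀ (by positivity)]; linarith

/-- Runge's pole pushing. -/
theorem PA.pole {K : Set ℂ} (hK : IsCompact K) (hc : IsPreconnected Kᶜ) {b : ℂ} (hb : b ∉ K) :
    PA K fun z => (z - b)⁻¹ := by
  have step : ∀ a b : ℂ, (∀ z ∈ K, ‖(b - a) * (z - a)⁻¹‖ ≤ 1 / 3 ∧ z ≠ a ∧ z ≠ b) →
      PA K (fun z => (z - a)⁻¹) → PA K fun z => (z - b)⁻¹ := by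
    intro a b h ha
    refine (ha.mul hK ((ha.const_mul hK (b - a)).inv_one_sub hK fun z hz => (h z hz).1)).congr
      fun z hz => ?_
    have h1 := sub_ne_zero.mpr (h z hz).2.1
    rw [← mul_inv]; congr 1; field_simp; ring
  obtain ⟨a, ha, ha0, ha'⟩ := exists_far hK
  refine hc.induction₂' (fun a b => PA K (fun z => (z - a)⁻¹) → PA K fun z => (z - b)⁻¹)
    (fun x hx => ?_) (fun _ _ _ _ _ _ h1 h2 h => h2 (h1 h)) ha hb ?_
  · filter_upwards [nhdsWithin_le_nhds (eventually_close hK.isClosed hx)] with y hy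
    exact ⟨step x y fun z hz => ⟨(hy z hz).1, (hy z hz).2.2⟩,
      step y x fun z hz => ⟨(hy z hz).2.1, (hy z hz).2.2.2, (hy z hz).2.2.1⟩⟩
  · refine (((PA.id'.mul hK (PA.const a⁻¹)).inv_one_sub hK ha').const_mul hK (-a⁻¹)).congr
      fun z _ => ?_
    rw [neg_mul, ← mul_inv, ← inv_neg]; congr 1; field_simp; ring

end Pool.Agent.Lib.Mergelyan
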